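import Pool.Agent.Q15.PA.Stm

/-!
# Project PA of helper15: job CO (change of coordinates)
-/

set_option autoImplicit false

open MeasureTheory Filter Topology

namespace Pool.Agent.Q176.PA

open Pool.Agent.Q15.PA

variable {d : ℕ}

/-- `evc` as a linear map -/
theorem evc_eq (N : V d →₀ ℝ) (ξ : V d) :
    evc N ξ = Finsupp.linearCombination ℝ (fun v : V d => Real.exp (v ⬝ᵥ ξ)) N := by
  rw [Finsupp.linearCombination_apply]
  rfl

theorem evc_map (N : V d →₀ ℝ) (f : V d → V d) (ξ : V d) :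
    evc (N.mapDomain f) ξ = N.sum fun v c => c * Real.exp (f v ⬝ᵥ ξ) := by
  unfold evc
  rw [Finsupp.sum_mapDomain_index]
  · intro b; simp
  · intro b m₁ m₂; ring

/-- change of variables -/
theorem E_map (G : Set (V d)) (U : Matrix (Fin d) (Fin d) ℝ) (hU : IsUnit U.det) (hG : IsCompact G)
    (ξ : V d) :
    E ((fun x => U⁻¹.mulVec x) '' G) (U.transpose.mulVec ξ) = |U.det|⁻¹ * E G ξ := by
  have hU0 : U.det ≠ 0 := hU.ne_zero
  have himg : (fun x => U⁻¹.mulVec x) '' G = (fun x => U.mulVec x) ⁻¹' G := by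
    ext x
    constructor
    · rintro ⟨y, hy, rfl⟩
      show U.mulVec (U⁻¹.mulVec y) ∈ G
      rw [Matrix.mulVec_mulVec, Matrix.mul_nonsing_inv _ hU, Matrix.one_mulVec]
      exact hy
    · intro hx
      refine ⟨U.mulVec x, hx, ?_⟩
      show U⁻¹.mulVec (U.mulVec x) = x
      rw [Matrix.mulVec_mulVec, Matrix.nonsing_inv_mul _ hU, Matrix.one_mulVec]
  have hmeas : Measurable (fun x : V d => U.mulVec x) := by
    have : Continuous (fun x : V d => U.mulVec x) := by fun_prop
    exact this.measurable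
  have hmap := Real.map_matrix_volume_pi_eq_smul_volume_pi hU0
  have h1 : ∫ y in G, Real.exp (ξ ⬝ᵥ y) ∂(Measure.map (fun x : V d => U.mulVec x) volume) =
      ∫ x in (fun x : V d => U.mulVec x) ⁻¹' G, Real.exp (ξ ⬝ᵥ U.mulVec x) := by
    rw [setIntegral_map hG.measurableSet _ hmeas.aemeasurable]
    apply Continuous.aestronglyMeasurable
    fun_prop
  have h2 : Measure.map (fun x : V d => U.mulVec x) volume =
      ENNReal.ofReal |(U.det)⁻¹| • (volume : Measure (V d)) := by
    rw [← hmap]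
    rfl
  rw [h2, Measure.restrict_smul, integral_smul_measure, ENNReal.toReal_ofReal (abs_nonneg _),
    smul_eq_mul, abs_inv] at h1
  unfold E
  rw [himg, h1]
  refine setIntegral_congr_fun (hmeas hG.measurableSet) fun x _ => ?_
  show Real.exp (U.transpose.mulVec ξ ⬝ᵥ x) = Real.exp (ξ ⬝ᵥ U.mulVec x)
  rw [Matrix.mulVec_transpose, Matrix.dotProduct_mulVec]

theorem evc_sub (N N' : V d →₀ ℝ) (ξ : V d) : evc (N - N') ξ = evc N ξ - evc N' ξ := by
  rw [evc_eq, evc_eq, evc_eq, map_sub]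

theorem evc_sum {ι : Type} (s : Finset ι) (N : ι → V d →₀ ℝ) (ξ : V d) :
    evc (∑ i ∈ s, N i) ξ = ∑ i ∈ s, evc (N i) ξ := by
  rw [evc_eq, map_sum]
  exact Finset.sum_congr rfl fun i _ => (evc_eq _ _).symm

/-- a product of linear forms times an exponential sum vanishes only if the sum does -/
theorem zero_of (hLI : S_LI) (u : Fin d → V d) (hu : ∀ i, u i ≠ 0) (c : V d →₀ ℝ)
    (h : ∀ ξ, (∏ i, u i ⬝ᵥ ξ) * evc c ξ = 0) : c = 0 := by
  classical
  let P : MvPolynomial (Fin d) ℝ := ∏ i, lin (u i)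
  have hP : P ≠ 0 := Finset.prod_ne_zero_iff.2 fun i _ => lin_ne (hu i)
  let p : V d →₀ MvPolynomial (Fin d) ℝ := c.mapRange (fun a => P * MvPolynomial.C a) (by simp)
  have hp : p = 0 := by
    apply hLI d p
    intro ξ
    unfold ev
    rw [Finsupp.sum_mapRange_index (by intro a; simp)]
    have := h ξ
    unfold evc at this
    rw [Finsupp.mul_sum] at this
    rw [← this]
    refine Finsupp.sum_congr fun v _ => ?_
    rw [map_mul, MvPolynomial.eval_C, map_prod]
    simp only [eval_lin]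
    ring
  ext v
  have h1 : p v = 0 := by rw [hp]; rfl
  have h2 : P * MvPolynomial.C (c v) = 0 := h1
  rcases mul_eq_zero.1 h2 with h3 | h3
  · exact absurd h3 hP
  · simpa using h3

theorem t_CO : S_CO := by
  intro hEX hFE hLI d G M S u N μ hA hG hu hE hμ hM
  classical
  obtain ⟨hMdet, -, -⟩ := hEX d M hA.expanding
  -- the matrix `U`
  let Ut : Matrix (Fin d) (Fin d) ℝ := Matrix.of u
  have hUt : IsUnit Ut := (Matrix.linearIndependent_rows_iff_isUnit (A := Ut)).1 hu
  let U : Matrix (Fin d) (Fin d) ℝ := Ut.transpose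
  have hUdet : IsUnit U.det := by
    show IsUnit Ut.transpose.det
    rw [Matrix.det_transpose]
    exact (Matrix.isUnit_iff_isUnit_det _).1 hUt
  have hU0 : U.det ≠ 0 := hUdet.ne_zero
  have hUT : ∀ (ξ : V d) (i : Fin d), (U.transpose.mulVec ξ) i = u i ⬝ᵥ ξ := fun ξ i => rfl
  have hU1 : ∀ x : V d, U.mulVec (U⁻¹.mulVec x) = x := fun x => by
    rw [Matrix.mulVec_mulVec, Matrix.mul_nonsing_inv _ hUdet, Matrix.one_mulVec]
  have hU2 : ∀ x : V d, U⁻¹.mulVec (U.mulVec x) = x := fun x => by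
    rw [Matrix.mulVec_mulVec, Matrix.nonsing_inv_mul _ hUdet, Matrix.one_mulVec]
  have hu0 : ∀ i, u i ≠ 0 := fun i => hu.ne_zero i
  -- `M U = U D`
  have hMU : M * U = U * Matrix.diagonal μ := by
    ext i j
    have h1 := congrFun (hM j) i
    rw [Matrix.mul_diagonal, Matrix.mul_apply]
    have h2 : (M.mulVec (u j)) i = ∑ k, M i k * U k j := rfl
    rw [← h2, h1]
    show μ j * u j i = u j i * μ j
    ring
  have hdet : M.det = ∏ i, μ i := by
    have h1 := congrArg Matrix.det hMU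
    rw [Matrix.det_mul, Matrix.det_mul, Matrix.det_diagonal, mul_comm U.det] at h1
    exact mul_right_cancel₀ hU0 h1
  have hpos : 0 < ∏ i, μ i := Finset.prod_pos fun i _ => lt_trans zero_lt_one (hμ i)
  have hM1 : ∀ x : V d, M.mulVec (M⁻¹.mulVec x) = x := fun x => by
    rw [Matrix.mulVec_mulVec, Matrix.mul_nonsing_inv _ hMdet, Matrix.one_mulVec]
  have hM2 : ∀ x : V d, M⁻¹.mulVec (M.mulVec x) = x := fun x => by
    rw [Matrix.mulVec_mulVec, Matrix.nonsing_inv_mul _ hMdet, Matrix.one_mulVec]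
  -- the equation for `N`
  have hinj : Function.Injective (fun v : V d => M.mulVec v) := fun a b h => by
    have h' : M.mulVec a = M.mulVec b := h
    rw [← hM2 a, h', hM2 b]
  let c : V d →₀ ℝ := (∑ s ∈ S, N.mapDomain (fun v => v + s)) - N.mapDomain (fun v => M.mulVec v)
  have hc : c = 0 := by
    apply zero_of hLI u hu0
    intro ξ
    have h1 := hFE d G M S hMdet hA ξ
    have h2 := hE ξ
    have h3 := hE (M.transpose.mulVec ξ)
    have h4 : (∏ i, u i ⬝ᵥ M.transpose.mulVec ξ) = (∏ i, μ i) * ∏ i, u i ⬝ᵥ ξ := by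
      rw [← Finset.prod_mul_distrib]
      refine Finset.prod_congr rfl fun i _ => ?_
      rw [Matrix.mulVec_transpose, dotProduct_comm, ← Matrix.dotProduct_mulVec, hM i,
        dotProduct_smul, smul_eq_mul, dotProduct_comm]
    have h5 : evc c ξ = (∑ s ∈ S, Real.exp (s ⬝ᵥ ξ)) * evc N ξ - evc N (M.transpose.mulVec ξ) := by
      rw [evc_sub, evc_sum, evc_map]
      congr 1
      · rw [Finset.sum_mul]
        refine Finset.sum_congr rfl fun s _ => ?_
        rw [evc_map]
        unfold evc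
        rw [Finsupp.mul_sum]
        refine Finsupp.sum_congr fun v _ => ?_
        rw [add_dotProduct, Real.exp_add]
        ring
      · unfold evc
        refine Finsupp.sum_congr fun v _ => ?_
        rw [Matrix.mulVec_transpose, ← dotProduct_comm ξ (M.mulVec v), Matrix.dotProduct_mulVec,
          dotProduct_comm v]
    rw [h4] at h3
    rw [hdet, abs_of_pos hpos] at h1
    have h6 : (∏ i, μ i) * ((∏ i, u i ⬝ᵥ ξ) * evc c ξ) = 0 := by
      rw [h5]
      have e1 : (∏ i, μ i) * ((∏ i, u i ⬝ᵥ ξ) * ((∑ s ∈ S, Real.exp (s ⬝ᵥ ξ)) * evc N ξ -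
          evc N (M.transpose.mulVec ξ))) =
          (∏ i, μ i) * (∏ i, u i ⬝ᵥ ξ) * (∏ i, u i ⬝ᵥ ξ) *
            ((∑ s ∈ S, Real.exp (s ⬝ᵥ ξ)) * E G ξ - (∏ i, μ i) * E G (M.transpose.mulVec ξ)) := by
        rw [← h2, ← h3]
        ring
      rw [e1, h1, sub_self, mul_zero]
    exact (mul_eq_zero.1 h6).resolve_left hpos.ne'
  have hN : ∀ w : V d, ∑ s ∈ S, N (w - s) = N (M⁻¹.mulVec w) := by
    intro w
    have h1 : c w = 0 := by rw [hc]; rfl
    have h2 : c w = ∑ s ∈ S, N (w - s) - N (M⁻¹.mulVec w) := by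
      show ((∑ s ∈ S, N.mapDomain (fun v => v + s)) - N.mapDomain (fun v => M.mulVec v)) w = _
      rw [Finsupp.sub_apply, Finsupp.finsetSum_apply]
      congr 1
      · refine Finset.sum_congr rfl fun s _ => ?_
        have h3 := Finsupp.mapDomain_apply (f := fun v : V d => v + s) (add_left_injective s) N (w - s)
        simpa using h3
      · have h3 := Finsupp.mapDomain_apply hinj N (M⁻¹.mulVec w)
        rw [hM1] at h3
        exact h3
    linarith
  -- the new data
  have hinjU : Function.Injective (fun v : V d => U⁻¹.mulVec v) := fun a b h => by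
    have h' : U⁻¹.mulVec a = U⁻¹.mulVec b := h
    rw [← hU1 a, h', hU1 b]
  let N' : V d →₀ ℝ := |U.det|⁻¹ • N.mapDomain (fun v => U⁻¹.mulVec v)
  have hN' : ∀ w : V d, N' w = |U.det|⁻¹ * N (U.mulVec w) := by
    intro w
    have h3 := Finsupp.mapDomain_apply hinjU N (U.mulVec w)
    rw [hU2] at h3
    show |U.det|⁻¹ • (N.mapDomain (fun v => U⁻¹.mulVec v) w) = _
    rw [h3, smul_eq_mul]
  refine ⟨U, (fun x => U⁻¹.mulVec x) '' G, N', S.image (fun v => U⁻¹.mulVec v), hUdet, ?_, ?_, ?_, ?_⟩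
  · rw [Set.image_image]
    simp only [hU1, Set.image_id']
  · rw [Finset.image_nonempty]
    by_contra hS
    rw [Finset.not_nonempty_iff_eq_empty] at hS
    have h1 := hA.eq
    rw [hS] at h1
    have h2 := hA.nonempty
    rw [h1] at h2
    simp at h2
  · intro η
    have hξ : U.transpose.mulVec ((U⁻¹).transpose.mulVec η) = η := by
      rw [Matrix.mulVec_mulVec, ← Matrix.transpose_mul, Matrix.nonsing_inv_mul _ hUdet,
        Matrix.transpose_one, Matrix.one_mulVec]
    set ξ : V d := (U⁻¹).transpose.mulVec η with hξdef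
    have h1 := E_map G U hUdet hA.compact ξ
    rw [hξ] at h1
    have h2 : ∏ i, η i = ∏ i, u i ⬝ᵥ ξ := by
      refine Finset.prod_congr rfl fun i _ => ?_
      rw [← hUT ξ i, hξ]
    rw [h1, h2]
    have h3 : (∏ i, u i ⬝ᵥ ξ) * (|U.det|⁻¹ * E G ξ) = |U.det|⁻¹ * evc N ξ := by
      rw [← hE ξ]; ring
    rw [h3, evc_eq N', map_smul, ← evc_eq, evc_map, smul_eq_mul]
    congr 1
    unfold evc
    refine Finsupp.sum_congr fun v _ => ?_
    rw [hξdef, Matrix.mulVec_transpose, dotProduct_comm v, ← Matrix.dotProduct_mulVec,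
      dotProduct_comm η]
  · intro w
    rw [Finset.sum_image fun a _ b _ h => hinjU h]
    have h1 : U.mulVec (fun i => w i / μ i) = M⁻¹.mulVec (U.mulVec w) := by
      have h2 : M.mulVec (U.mulVec (fun i => w i / μ i)) = U.mulVec w := by
        rw [Matrix.mulVec_mulVec, hMU, ← Matrix.mulVec_mulVec]
        congr 1
        ext i
        rw [Matrix.mulVec_diagonal]
        have : μ i ≠ 0 := (lt_trans zero_lt_one (hμ i)).ne'
        field_simp
      rw [← h2, hM2]
    rw [hN', h1, ← hN (U.mulVec w), Finset.mul_sum]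
    refine Finset.sum_congr rfl fun s _ => ?_
    rw [hN', Matrix.mulVec_sub, hU1]

end Pool.Agent.Q176.PA
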